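import Pool.Agent.W700.KK.Fin
import Pool.Agent.W700.PS.Fin
import Pool.Agent.W37.PS.T1
import Pool.Agent.W700.KK.Bar

/-!
MP_5c7eee_an, Q1: neither the algebra `K(E)` of compact operators nor the algebra `F(E)` of approximable
operators of a complex Banach space `E` is always H-unital.

Definitions (file `Pool/Agent/W700/KK/Bar.lean`):
* `TP A n` is the algebraic tensor power `A^{⊗(n+1)}` over `ℂ` of the possibly non-unital complex
  algebra `A`, `tens a` the elementary tensor `a 0 ⊗ ⋯ ⊗ a n`;
* `bar A n : A^{⊗(n+2)} → A^{⊗(n+1)}` is the differential `b'` of the bar complex, the unique linear map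
  with `b' (a 0 ⊗ ⋯ ⊗ a (n+1)) = ∑ i ≤ n, (-1)^i a 0 ⊗ ⋯ ⊗ a i * a (i+1) ⊗ ⋯ ⊗ a (n+1)`;
* `HUnital A`: `bar A 0` is surjective and `range (bar A (n+1)) = ker (bar A n)` for all `n`, i.e. the
  bar complex is exact in every degree, including at `A`;
* `KE E`: the algebra of compact operators on `E`;
* `FE E`: the algebra of approximable operators on `E`, the norm closure of the finite rank operators;
* `HUnitalSub B`: the algebra `B`, a subalgebra of a complex algebra, is H-unital.
-/

set_option autoImplicit false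

namespace Pool.Agent.Results.MP_5c7eee_an.NotHUnital

open W700.KB

/-- There is a complex Banach space whose algebra of compact operators is not H-unital, and there is a
complex Banach space whose algebra of approximable operators is not H-unital. -/
theorem result :
    (∃ (E : Type) (_ : NormedAddCommGroup E) (_ : NormedSpace ℂ E) (_ : CompleteSpace E),
      ¬ HUnitalSub (KE E)) ∧
    (∃ (E : Type) (_ : NormedAddCommGroup E) (_ : NormedSpace ℂ E) (_ : CompleteSpace E),
      ¬ HUnitalSub (FE E)) := by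
  refine ⟨?_, ?_⟩
  · obtain ⟨E, i1, i2, i3, T, hT, hT2⟩ := W700.KK.main
    refine ⟨E, i1, i2, i3, not_hunital (KE E) ⟨T, hT, fun h => hT2 ?_⟩⟩
    refine Submodule.span_mono ?_ h
    rintro U ⟨A, hA, B, hB, rfl⟩
    exact ⟨A, B, hA, hB, rfl⟩
  · obtain ⟨u, hu, hu2⟩ := W700.PS.final W37.PS.main
    have key : ∀ a : W700.PS.PP →L[ℂ] W700.PS.PP,
        a ∈ FE W700.PS.PP ↔ a ∈ (W700.PS.FRk W700.PS.PP).topologicalClosure := by
      intro a
      have h1 : a ∈ FE W700.PS.PP ↔ a ∈ closure {S : W700.PS.PP →L[ℂ] W700.PS.PP |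
        FiniteDimensional ℂ (LinearMap.range (S : W700.PS.PP →ₗ[ℂ] W700.PS.PP))} := Iff.rfl
      rw [h1, ← W700.PS.FRk_eq]
      rfl
    refine ⟨W700.PS.PP, inferInstance, inferInstance, inferInstance,
      not_hunital (FE W700.PS.PP) ⟨u, (key u).2 hu, fun h => hu2 ?_⟩⟩
    refine Submodule.span_mono ?_ h
    rintro U ⟨A, hA, B, hB, rfl⟩
    exact ⟨A, (key A).1 hA, B, (key B).1 hB, rfl⟩

end Pool.Agent.Results.MP_5c7eee_an.NotHUnital
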